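import Pool.Agent.Q294.Pm.Sch
import Pool.Agent.Q294.Pm.Asm
import Pool.Agent.Q294.Pm.B
import Pool.Agent.Q294.Pm.E
import Pool.Agent.Q294.Pm.H
import Pool.Agent.Q294.Pm.I
import Pool.Agent.Q294.Pm.P
import Pool.Agent.Q294.Pm.Q
import Pool.Agent.Q294.Pm.R

/-!
MP_47e84d_pr: the answer to Q1 is negative for every critical configuration in the plane. In every
translation-invariant `V`-matching scheme the typical family diameter `X` satisfies
`E*[min(X, R)] ≥ c √(log R)` for large `R`, so no scheme has `P*(X > r) < C / (r log r)` for all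
large `r`.
-/

set_option autoImplicit false

open MeasureTheory Q294.Pm

namespace Pool.Agent.Results.MP_47e84d_pr.NoLogTail

universe u

/-- **Theorem.** Let `(lam, V)` be critical: `lam` is in the frontier of `cone V`. There are `c > 0`
and `R₀` (which depend only on `lam` and `V`) such that for every translation-invariant `V`-matching
scheme `M` of independent homogeneous Poisson processes of intensities `lam` in the plane, with
`tail r = P*(X > r)`:
(1) `∫_0^R P*(X > r) dr ≥ c √(log R)` for all `R ≥ R₀` (the left side is `E*[min(X, R)]`);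
(2) there are no `C`, `r₀` with `P*(X > r) < C / (r log r)` for all `r ≥ r₀`. -/
theorem result (q : ℕ) (lam : Fin q → ℝ) (hlam : ∀ i, 0 < lam i) (V : Finset (Fin q → ℕ))
    (hcrit : lam ∈ frontier (cone V)) :
    ∃ c R₀ : ℝ, 0 < c ∧ ∀ (Ω : Type u) [MeasurableSpace Ω] (P : Measure Ω)
      [IsProbabilityMeasure P] (M : Ω → Set (Family q)), IsScheme P lam V M →
      (∀ R ≥ R₀, c * √(Real.log R) ≤ ∫ r in (0 : ℝ)..R, tail P lam M r) ∧
      ∀ C r₀ : ℝ, ¬ ∀ r ≥ r₀, tail P lam M r < C / (r * Real.log r) :=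
  main (t_D (t_C t_A)) (t_H t_B (t_C t_A) (t_E (t_C t_A)) (t_G t_F)) t_I t_J t_K t_L t_P t_Q t_R
    t_T t_V hlam hcrit

end Pool.Agent.Results.MP_47e84d_pr.NoLogTail
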